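import Pool.Agent.H69.LQ.Lib

/-!
# Row JI: the integral of `J`
-/

set_option autoImplicit false

open MeasureTheory Metric Set
open scoped ENNReal
open Pool.Agent.H85.LK (E adm lam Ann)
open Pool.Agent.H69.LQ

namespace Pool.Agent.H96.LQ

/-- **JI.** -/
theorem pf_JI (hJS : T_JS) : T_JI := by
  intro ν z hν hz
  have hν0 : 0 < ν := by linarith
  obtain ⟨-, -, hd, hr⟩ := hJS ν hν0
  obtain ⟨-, -, hd1, -⟩ := hJS (ν + 1) (by linarith)
  have hder : ∀ t ∈ uIcc (0 : ℝ) z,
      HasDerivAt (fun t : ℝ => t ^ ν * (J (ν + 1) t / ν)) (t ^ (ν - 1) * J ν t) t := by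
    intro t ht
    rw [uIcc_of_le hz] at ht
    have h1 : HasDerivAt (fun t : ℝ => t ^ ν) (ν * t ^ (ν - 1)) t :=
      Real.hasDerivAt_rpow_const (Or.inr hν)
    have h2 := h1.mul ((hd1 t).div_const ν)
    have h3 : ν * t ^ (ν - 1) * (J (ν + 1) t / ν) + t ^ ν * (-(J (ν + 1 + 1) t / (ν + 1)) / ν) =
        t ^ (ν - 1) * J ν t := by
      have h4 : t ^ ν = t ^ (ν - 1) * t := by
        have := Real.rpow_add_one' ht.1 (y := ν - 1) (by linarith : ν - 1 + 1 ≠ 0)
        rwa [sub_add_cancel] at this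
      have h5 : ν + 1 + 1 = ν + 2 := by ring
      rw [hr t, h4, h5]
      field_simp
      ring
    rw [← h3]
    exact h2
  have hc : Continuous fun t : ℝ => t ^ (ν - 1) * J ν t := by
    refine (Real.continuous_rpow_const (by linarith)).mul ?_
    exact continuous_iff_continuousAt.2 fun t => (hd t).continuousAt
  rw [intervalIntegral.integral_eq_sub_of_hasDerivAt hder (hc.intervalIntegrable _ _)]
  rw [Real.zero_rpow (by linarith), zero_mul, sub_zero]

end Pool.Agent.H96.LQ
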